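import Pool.Agent.H62.CYC.DefsL

/-!
# Project CYC, module LD: simultaneous diagonalisation on the fixed space of the involution
-/

set_option autoImplicit false

namespace Pool.Agent.H30.CYC

open Finset Matrix Pool.Agent.H62.CYC
open scoped ComplexOrder

/-- the spectral theorem in matrix form -/
lemma diagU {m : ℕ} {A : Matrix (Fin m) (Fin m) ℂ} (hA : A.IsHermitian) :
    ∃ U : Matrix (Fin m) (Fin m) ℂ, Uᴴ * U = 1 ∧ U * Uᴴ = 1 ∧
      Uᴴ * A * U = diagonal (fun i => ((hA.eigenvalues i : ℝ) : ℂ)) := by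
  have h1 : (hA.eigenvectorUnitary : Matrix (Fin m) (Fin m) ℂ)ᴴ *
      (hA.eigenvectorUnitary : Matrix (Fin m) (Fin m) ℂ) = 1 := by
    rw [← Matrix.star_eq_conjTranspose]
    exact Unitary.coe_star_mul_self _
  have h2 := mul_eq_one_comm.1 h1
  refine ⟨(hA.eigenvectorUnitary : Matrix (Fin m) (Fin m) ℂ), h1, h2, ?_⟩
  have h3 := hA.conjStarAlgAut_star_eigenvectorUnitary
  rw [Unitary.conjStarAlgAut_star_apply] at h3
  rw [← Matrix.star_eq_conjTranspose]
  exact h3

lemma form_eq' {n : ℕ} (J : Fin n → ℝ) (x : Fin n → ℂ) :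
    star x ⬝ᵥ (diagonal (fun i => (J i : ℂ)) *ᵥ x) = ((∑ i, J i * ‖x i‖ ^ 2 : ℝ) : ℂ) := by
  rw [dotProduct]
  push_cast
  refine sum_congr rfl fun i _ => ?_
  rw [Matrix.mulVec_diagonal, Pi.star_apply, Complex.star_def]
  have := Complex.conj_mul' (x i)
  linear_combination (J i : ℂ) * this

/-- congruence of a positive definite matrix to the identity -/
lemma congr_one {m : ℕ} {H : Matrix (Fin m) (Fin m) ℂ} (hH : H.PosDef) :
    ∃ R R' : Matrix (Fin m) (Fin m) ℂ, R * R' = 1 ∧ Rᴴ * H * R = 1 := by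
  obtain ⟨U, h1, h2, h3⟩ := diagU hH.1
  have hpos := hH.eigenvalues_pos
  set e : Fin m → ℝ := fun i => (Real.sqrt (hH.1.eigenvalues i))⁻¹ with he
  set e' : Fin m → ℝ := fun i => Real.sqrt (hH.1.eigenvalues i) with he'
  refine ⟨U * diagonal (fun i => (e i : ℂ)), diagonal (fun i => (e' i : ℂ)) * Uᴴ, ?_, ?_⟩
  · have : diagonal (fun i => (e i : ℂ)) * diagonal (fun i => (e' i : ℂ)) = 1 := by
      rw [diagonal_mul_diagonal, ← diagonal_one]
      congr 1
      funext i
      have h4 : Real.sqrt (hH.1.eigenvalues i) ≠ 0 := (Real.sqrt_pos.2 (hpos i)).ne'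
      rw [← Complex.ofReal_mul, he, he']
      simp only
      rw [inv_mul_cancel₀ h4, Complex.ofReal_one]
    calc U * diagonal (fun i => (e i : ℂ)) * (diagonal (fun i => (e' i : ℂ)) * Uᴴ)
        = U * (diagonal (fun i => (e i : ℂ)) * diagonal (fun i => (e' i : ℂ))) * Uᴴ := by
          simp only [Matrix.mul_assoc]
      _ = 1 := by rw [this, Matrix.mul_one, h2]
  · have hd : (diagonal (fun i => (e i : ℂ)))ᴴ = diagonal (fun i => (e i : ℂ)) := by
      rw [diagonal_conjTranspose]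
      congr 1
      funext i
      rw [Pi.star_apply, Complex.star_def, Complex.conj_ofReal]
    rw [Matrix.conjTranspose_mul, hd]
    calc diagonal (fun i => (e i : ℂ)) * Uᴴ * H * (U * diagonal (fun i => (e i : ℂ)))
        = diagonal (fun i => (e i : ℂ)) * (Uᴴ * H * U) * diagonal (fun i => (e i : ℂ)) := by
          simp only [Matrix.mul_assoc]
      _ = 1 := by
          rw [h3, diagonal_mul_diagonal, diagonal_mul_diagonal, ← diagonal_one]
          congr 1
          funext i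
          have h4 : Real.sqrt (hH.1.eigenvalues i) ≠ 0 := (Real.sqrt_pos.2 (hpos i)).ne'
          have h5 : Real.sqrt (hH.1.eigenvalues i) * Real.sqrt (hH.1.eigenvalues i)
              = hH.1.eigenvalues i := Real.mul_self_sqrt (hpos i).le
          have h6 : e i * hH.1.eigenvalues i * e i = 1 := by
            rw [he]
            simp only
            field_simp
            nlinarith [h5]
          exact_mod_cast h6

theorem ld : S_LD := by
  intro n J F Q hF hQ hFJ hQJ hpos hpos'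
  set Jm : Matrix (Fin n) (Fin n) ℂ := diagonal fun i => (J i : ℂ) with hJm
  set W : Submodule ℂ (Fin n → ℂ) := LinearMap.ker (Matrix.mulVecLin (F - 1)) with hW
  have hWmem : ∀ x : Fin n → ℂ, x ∈ W ↔ F *ᵥ x = x := by
    intro x
    rw [hW, LinearMap.mem_ker, Matrix.mulVecLin_apply, Matrix.sub_mulVec, Matrix.one_mulVec,
      sub_eq_zero]
  set m := Module.finrank ℂ W with hm
  have hmn : m ≤ n := by
    have := Submodule.finrank_le W
    simpa using this
  let b : Module.Basis (Fin m) ℂ W := Module.finBasis ℂ W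
  set V0 : Matrix (Fin n) (Fin m) ℂ := Matrix.of fun i j => (b j : Fin n → ℂ) i with hV0
  have hV0mul : ∀ y : Fin m → ℂ, V0 *ᵥ y = ((∑ j, y j • b j : W) : Fin n → ℂ) := by
    intro y
    funext i
    rw [Matrix.mulVec, dotProduct, Submodule.coe_sum, Finset.sum_apply]
    refine sum_congr rfl fun j _ => ?_
    rw [hV0, Matrix.of_apply, Submodule.coe_smul, Pi.smul_apply, smul_eq_mul, mul_comm]
  have hV0F : ∀ y : Fin m → ℂ, F *ᵥ (V0 *ᵥ y) = V0 *ᵥ y := by
    intro y
    rw [hV0mul y]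
    exact (hWmem _).1 (∑ j, y j • b j : W).2
  have hV0inj : ∀ y : Fin m → ℂ, V0 *ᵥ y = 0 → y = 0 := by
    intro y hy
    rw [hV0mul y] at hy
    have h1 : (∑ j, y j • b j : W) = 0 := Subtype.ext hy
    have h2 := Fintype.linearIndependent_iff.1 b.linearIndependent y h1
    funext j
    exact h2 j
  have hFV0 : F * V0 = V0 := by
    apply Matrix.ext_of_mulVec_single
    intro j
    rw [← Matrix.mulVec_mulVec]
    exact hV0F _
  have hJmH : Jmᴴ = Jm := by
    rw [hJm, diagonal_conjTranspose]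
    congr 1
    funext i
    rw [Pi.star_apply, Complex.star_def, Complex.conj_ofReal]
  -- the Hermitian form
  have hH0 : (V0ᴴ * Jm * V0).PosDef := by
    refine Matrix.PosDef.of_dotProduct_mulVec_pos ?_ ?_
    · rw [Matrix.IsHermitian, Matrix.conjTranspose_mul, Matrix.conjTranspose_mul,
        Matrix.conjTranspose_conjTranspose, hJmH, Matrix.mul_assoc]
    · intro y hy
      have h1 : star y ⬝ᵥ ((V0ᴴ * Jm * V0) *ᵥ y) =
          star (V0 *ᵥ y) ⬝ᵥ (Jm *ᵥ (V0 *ᵥ y)) := by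
        rw [Matrix.star_mulVec, ← Matrix.dotProduct_mulVec, Matrix.mulVec_mulVec,
          Matrix.mulVec_mulVec]
      rw [h1, form_eq']
      have h2 := hpos (V0 *ᵥ y) (hV0F y) (fun h => hy (hV0inj y h))
      exact_mod_cast h2
  obtain ⟨R, R', hRR, hR⟩ := congr_one hH0
  -- the second form
  set B : Matrix (Fin m) (Fin m) ℂ := (V0 * R)ᴴ * (Jm * Q) * (V0 * R) with hB
  have hJQ : Jm * Q = Qᴴ * Jm * Q := by
    calc Jm * Q = Jm * (Q * Q) := by rw [hQ]
      _ = (Jm * Q) * Q := by rw [Matrix.mul_assoc]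
      _ = Qᴴ * Jm * Q := by rw [← hQJ]
  have hBps : B.PosSemidef := by
    refine Matrix.PosSemidef.of_dotProduct_mulVec_nonneg ?_ ?_
    · rw [Matrix.IsHermitian, hB, hJQ]
      simp only [Matrix.conjTranspose_mul, Matrix.conjTranspose_conjTranspose, hJmH,
        Matrix.mul_assoc]
    · intro y
      have h1 : star y ⬝ᵥ (B *ᵥ y) =
          star (Q *ᵥ ((V0 * R) *ᵥ y)) ⬝ᵥ (Jm *ᵥ (Q *ᵥ ((V0 * R) *ᵥ y))) := by
        rw [hB, hJQ]
        simp only [Matrix.star_mulVec, ← Matrix.dotProduct_mulVec, Matrix.mulVec_mulVec,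
          Matrix.mul_assoc, Matrix.conjTranspose_mul]
      rw [h1, form_eq']
      have h2 := hpos' (Q *ᵥ ((V0 * R) *ᵥ y)) (by rw [Matrix.mulVec_mulVec, hQ])
      exact_mod_cast h2
  obtain ⟨U, hU1, hU2, hU3⟩ := diagU hBps.1
  set V : Matrix (Fin n) (Fin m) ℂ := V0 * R * U with hV
  have hVF : F * V = V := by
    rw [hV, ← Matrix.mul_assoc, ← Matrix.mul_assoc, hFV0]
  have hVJ : Vᴴ * Jm * V = 1 := by
    calc Vᴴ * Jm * V = Uᴴ * (Rᴴ * (V0ᴴ * Jm * V0) * R) * U := by
          rw [hV]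
          simp only [Matrix.conjTranspose_mul, Matrix.mul_assoc]
      _ = 1 := by rw [hR, Matrix.mul_one, hU1]
  have hVQ : Vᴴ * Jm * Q * V = diagonal (fun i => ((hBps.1.eigenvalues i : ℝ) : ℂ)) := by
    rw [← hU3, hB, hV]
    simp only [Matrix.conjTranspose_mul, Matrix.mul_assoc]
  -- the projection
  set E : Matrix (Fin n) (Fin n) ℂ := (1 / 2 : ℂ) • (1 + F) with hE
  have hEV : E * V = V := by
    rw [hE, Matrix.smul_mul, Matrix.add_mul, Matrix.one_mul, hVF, ← two_smul ℂ V, smul_smul]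
    norm_num
  have hEJ : Eᴴ * Jm = Jm * E := by
    rw [hE, Matrix.conjTranspose_smul, Matrix.conjTranspose_add, Matrix.conjTranspose_one,
      Matrix.smul_mul, Matrix.mul_smul, Matrix.add_mul, Matrix.mul_add, hFJ, Matrix.one_mul,
      Matrix.mul_one]
    congr 1
    norm_num [Complex.star_def]
  have hFE : F * E = E := by
    rw [hE, Matrix.mul_smul, Matrix.mul_add, hF, Matrix.mul_one, add_comm]
  obtain ⟨Y, hY⟩ : ∃ Y : Matrix (Fin m) (Fin n) ℂ, E = V0 * Y := by
    have hcol : ∀ j : Fin n, (E *ᵥ Pi.single j 1) ∈ W := by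
      intro j
      rw [hWmem, Matrix.mulVec_mulVec, hFE]
    refine ⟨Matrix.of fun k j => b.repr ⟨E *ᵥ Pi.single j 1, hcol j⟩ k, ?_⟩
    apply Matrix.ext_of_mulVec_single
    intro j
    rw [← Matrix.mulVec_mulVec, hV0mul]
    have h1 : (∑ k, ((Matrix.of fun k j => b.repr ⟨E *ᵥ Pi.single j 1, hcol j⟩ k) *ᵥ
        Pi.single j 1) k • b k : W) = ⟨E *ᵥ Pi.single j 1, hcol j⟩ := by
      refine Eq.trans ?_ (b.sum_repr ⟨E *ᵥ Pi.single j 1, hcol j⟩)
      refine sum_congr rfl fun k _ => ?_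
      rw [Matrix.mulVec_single_one]
      rfl
    rw [h1]
  have hEV' : E = V * (Uᴴ * R' * Y) := by
    calc E = V0 * Y := hY
      _ = V0 * (R * (U * Uᴴ) * R') * Y := by rw [hU2, Matrix.mul_one, hRR, Matrix.mul_one]
      _ = V * (Uᴴ * R' * Y) := by rw [hV]; simp only [Matrix.mul_assoc]
  have hP1 : V * Vᴴ * Jm * E = E := by
    calc V * Vᴴ * Jm * E = V * Vᴴ * Jm * (V * (Uᴴ * R' * Y)) := by rw [← hEV']
      _ = V * (Vᴴ * Jm * V) * (Uᴴ * R' * Y) := by simp only [Matrix.mul_assoc]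
      _ = E := by rw [hVJ, Matrix.mul_one, ← hEV']
  have hP2 : V * Vᴴ * Jm * E = V * Vᴴ * Jm := by
    calc V * Vᴴ * Jm * E = V * (Vᴴ * (Jm * E)) := by simp only [Matrix.mul_assoc]
      _ = V * (Vᴴ * (Eᴴ * Jm)) := by rw [hEJ]
      _ = V * ((E * V)ᴴ * Jm) := by rw [Matrix.conjTranspose_mul E V]; simp only [Matrix.mul_assoc]
      _ = V * Vᴴ * Jm := by rw [hEV]; simp only [Matrix.mul_assoc]
  exact ⟨m, V, fun i => hBps.1.eigenvalues i, hmn, fun i => hBps.eigenvalues_nonneg i, hVF, hVJ,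
    hVQ, hP2.symm.trans hP1⟩

end Pool.Agent.H30.CYC
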